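import Pool.Agent.J4H7.WE.D1

set_option autoImplicit false

/-!
# Representations against their averages in mean square (helper18, for helper7)

Bessel's inequality for `∫ F G (1 - K) e(-Nα)`.
-/

namespace Pool.Agent.J4H18.WT

open MeasureTheory
open Pool.Agent.Helper153.Vdc (ee)
open Pool.Agent.J4H7.WE

open scoped Classical in
/-- the weighted number of representations `N = f a + g b` -/
noncomputable def rr {ι κ : Type*} (A : Finset ι) (f : ι → ℕ) (B : Finset κ) (g : κ → ℕ) (w : κ → ℝ) (N : ℤ) : ℝ :=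
  ∑ a ∈ A, ∑ b ∈ B, if ((f a : ℤ) + g b = N) then w b else 0

section
variable {ι κ : Type*} (A : Finset ι) (f : ι → ℕ) (B : Finset κ) (g : κ → ℕ) (w : κ → ℝ)

lemma rr_eq (N : ℤ) : ((rr A f B g w N : ℝ) : ℂ) =
    ∫ α in (-(1 / 2) : ℝ)..(1 / 2), FFs A f α * GGs B g w α * ee (-(N * α)) := by
  classical
  have hc := ee_cont
  have e1 : ∀ α : ℝ, FFs A f α * GGs B g w α * ee (-(N * α)) =
      ∑ a ∈ A, ∑ b ∈ B, (w b : ℂ) * ee ((((f a : ℤ) + g b - N : ℤ) : ℝ) * α) := by
    intro α
    unfold FFs GGs
    rw [Finset.sum_mul_sum, Finset.sum_mul]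
    refine Finset.sum_congr rfl fun a _ => ?_
    rw [Finset.sum_mul]
    refine Finset.sum_congr rfl fun b _ => ?_
    have : (((f a : ℤ) + g b - N : ℤ) : ℝ) * α = (α * f a) + (α * g b) + -(N * α) := by
      push_cast
      ring
    rw [this, ee_add, ee_add]
    ring
  simp_rw [e1]
  rw [intervalIntegral.integral_finsetSum]
  · unfold rr
    push_cast
    refine Finset.sum_congr rfl fun a _ => ?_
    rw [intervalIntegral.integral_finsetSum]
    · refine Finset.sum_congr rfl fun b _ => ?_
      have ho := ee_orth ((f a : ℤ) + g b - N)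
      push_cast at ho
      rw [intervalIntegral.integral_const_mul, ho]
      by_cases h : (f a : ℤ) + g b = N
      · rw [if_pos h, if_pos (by omega), mul_one]
      · rw [if_neg h, if_neg (by omega), mul_zero]
        simp
    · intro b _
      apply Continuous.intervalIntegrable
      fun_prop
  · intro a _
    apply Continuous.intervalIntegrable
    fun_prop

lemma KK_cont (W : ℕ) : Continuous (KK W) := by
  unfold KK
  have := ee_cont
  fun_prop

/-- the difference with the average as a Fourier coefficient -/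
lemma rr_avg_eq (W : ℕ) (N : ℤ) :
    ((rr A f B g w N - (1 / (W : ℝ)) * ∑ h ∈ Finset.range W, rr A f B g w (N - h) : ℝ) : ℂ) =
      ∫ α in (-(1 / 2) : ℝ)..(1 / 2), FFs A f α * GGs B g w α * (1 - KK W α) * ee (-(N * α)) := by
  have hc := ee_cont
  have hF := FFs_cont A f
  have hG := GGs_cont B g w
  push_cast
  rw [rr_eq]
  simp_rw [rr_eq]
  rw [← intervalIntegral.integral_finsetSum, ← intervalIntegral.integral_const_mul, ← intervalIntegral.integral_sub]
  · refine intervalIntegral.integral_congr fun α _ => ?_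
    unfold KK
    have e1 : ∀ h : ℕ, FFs A f α * GGs B g w α * ee (-(((N - (h : ℤ) : ℤ) : ℝ) * α)) =
        FFs A f α * GGs B g w α * ee (-(N * α)) * ee (h * α) := by
      intro h
      have : -(((N - (h : ℤ) : ℤ) : ℝ) * α) = -(N * α) + h * α := by
        push_cast
        ring
      rw [this, ee_add]
      ring
    rw [Finset.sum_congr rfl fun h _ => e1 h, ← Finset.mul_sum]
    ring
  · apply Continuous.intervalIntegrable
    fun_prop
  · apply Continuous.intervalIntegrable
    fun_prop
  · intro h _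
    apply Continuous.intervalIntegrable
    fun_prop

lemma conj_ee (x : ℝ) : (starRingEnd ℂ) (ee x) = ee (-x) := by
  unfold ee
  rw [← Complex.exp_conj]
  congr 1
  simp only [map_mul, Complex.conj_ofReal, Complex.conj_I, Complex.conj_ofNat]
  push_cast
  ring

/-- **Bessel's inequality** for a continuous function with real Fourier coefficients -/
theorem bessel {H : ℝ → ℂ} (hH : Continuous H) (S : Finset ℤ) (d : ℤ → ℝ)
    (hd : ∀ N ∈ S, ((d N : ℝ) : ℂ) = ∫ α in (-(1 / 2) : ℝ)..(1 / 2), H α * ee (-(N * α))) :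
    ∑ N ∈ S, d N ^ 2 ≤ ∫ α in (-(1 / 2) : ℝ)..(1 / 2), ‖H α‖ ^ 2 := by
  classical
  have hc := ee_cont
  set P : ℝ → ℂ := fun α => ∑ N ∈ S, (d N : ℂ) * ee (N * α) with hP
  have hPc : Continuous P := by
    rw [hP]
    fun_prop
  have hPconj : ∀ α, (starRingEnd ℂ) (P α) = ∑ N ∈ S, (d N : ℂ) * ee (-(N * α)) := by
    intro α
    rw [hP]
    simp only [map_sum, map_mul, Complex.conj_ofReal, conj_ee]
  have hcc : Continuous fun α => (starRingEnd ℂ) (P α) := Complex.continuous_conj.comp hPc
  have hch : Continuous fun α => (starRingEnd ℂ) (H α) := Complex.continuous_conj.comp hH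
  -- the mixed term
  have h1 : ∫ α in (-(1 / 2) : ℝ)..(1 / 2), H α * (starRingEnd ℂ) (P α) = ((∑ N ∈ S, d N ^ 2 : ℝ) : ℂ) := by
    simp_rw [hPconj, Finset.mul_sum]
    rw [intervalIntegral.integral_finsetSum]
    · push_cast
      refine Finset.sum_congr rfl fun N hN => ?_
      have e : ∀ α : ℝ, H α * ((d N : ℂ) * ee (-(N * α))) = (d N : ℂ) * (H α * ee (-(N * α))) := fun α => by ring
      simp_rw [e]
      rw [intervalIntegral.integral_const_mul, ← hd N hN]
      ring
    · intro N _
      apply Continuous.intervalIntegrable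
      fun_prop
  -- the square of `P`
  have h2 : ∫ α in (-(1 / 2) : ℝ)..(1 / 2), P α * (starRingEnd ℂ) (P α) = ((∑ N ∈ S, d N ^ 2 : ℝ) : ℂ) := by
    have e : ∀ α : ℝ, P α * (starRingEnd ℂ) (P α) =
        ∑ N ∈ S, ∑ M ∈ S, ((d N : ℂ) * d M) * ee (((N - M : ℤ) : ℝ) * α) := by
      intro α
      rw [hPconj, hP]
      simp only []
      rw [Finset.sum_mul_sum]
      refine Finset.sum_congr rfl fun N _ => Finset.sum_congr rfl fun M _ => ?_
      have : (((N - M : ℤ) : ℝ) * α) = N * α + -(M * α) := by
        push_cast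
        ring
      rw [this, ee_add]
      ring
    simp_rw [e]
    rw [intervalIntegral.integral_finsetSum]
    · push_cast
      refine Finset.sum_congr rfl fun N hN => ?_
      rw [intervalIntegral.integral_finsetSum]
      · have e2 : ∀ M ∈ S, (∫ α in (-(1 / 2) : ℝ)..(1 / 2), ((d N : ℂ) * d M) * ee (((N - M : ℤ) : ℝ) * α)) =
            if N = M then (d N : ℂ) ^ 2 else 0 := by
          intro M _
          rw [intervalIntegral.integral_const_mul, ee_orth]
          by_cases h : N = M
          · subst h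
            simp
            ring
          · rw [if_neg h, if_neg (by omega), mul_zero]
        push_cast at e2 ⊢
        rw [Finset.sum_congr rfl e2, Finset.sum_ite_eq S N]
        simp [hN]
      · intro M _
        apply Continuous.intervalIntegrable
        fun_prop
    · intro N _
      apply Continuous.intervalIntegrable
      fun_prop
  -- positivity
  have h3 : (0 : ℝ) ≤ ∫ α in (-(1 / 2) : ℝ)..(1 / 2), ‖H α - P α‖ ^ 2 := by
    apply intervalIntegral.integral_nonneg (by norm_num)
    intro α _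
    positivity
  have e3 : ∀ α : ℝ, ‖H α - P α‖ ^ 2 =
      ‖H α‖ ^ 2 - 2 * (H α * (starRingEnd ℂ) (P α)).re + (P α * (starRingEnd ℂ) (P α)).re := by
    intro α
    have a1 : ((‖H α - P α‖ ^ 2 : ℝ) : ℂ) = (H α - P α) * (starRingEnd ℂ) (H α - P α) := by
      rw [Complex.ofReal_pow, ← Complex.mul_conj']
    have a2 : ((‖H α‖ ^ 2 : ℝ) : ℂ) = H α * (starRingEnd ℂ) (H α) := by
      rw [Complex.ofReal_pow, ← Complex.mul_conj']
    have a3 : ‖H α - P α‖ ^ 2 = ((H α - P α) * (starRingEnd ℂ) (H α - P α)).re := by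
      rw [← a1, Complex.ofReal_re]
    have a4 : ‖H α‖ ^ 2 = (H α * (starRingEnd ℂ) (H α)).re := by
      rw [← a2, Complex.ofReal_re]
    rw [a3, a4]
    simp only [map_sub, Complex.mul_re, Complex.sub_re, Complex.sub_im, Complex.conj_re, Complex.conj_im]
    ring
  simp_rw [e3] at h3
  have hre : ∀ f : ℝ → ℂ, Continuous f →
      ∫ α in (-(1 / 2) : ℝ)..(1 / 2), (f α).re = (∫ α in (-(1 / 2) : ℝ)..(1 / 2), f α).re := by
    intro f hf
    have := ContinuousLinearMap.intervalIntegral_comp_comm Complex.reCLM (hf.intervalIntegrable (μ := volume) (-(1 / 2)) (1 / 2))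
    simpa using this
  have hc1 : Continuous fun α => H α * (starRingEnd ℂ) (P α) := hH.mul hcc
  have hc2 : Continuous fun α => P α * (starRingEnd ℂ) (P α) := hPc.mul hcc
  have hc1r : Continuous fun α => (H α * (starRingEnd ℂ) (P α)).re := Complex.continuous_re.comp hc1
  have hc2r : Continuous fun α => (P α * (starRingEnd ℂ) (P α)).re := Complex.continuous_re.comp hc2
  have hcn : Continuous fun α => ‖H α‖ ^ 2 := by fun_prop
  rw [intervalIntegral.integral_add, intervalIntegral.integral_sub, intervalIntegral.integral_const_mul,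
    hre _ hc1, hre _ hc2, h1, h2, Complex.ofReal_re] at h3
  · linarith
  · exact hcn.intervalIntegrable _ _
  · exact (hc1r.const_mul 2 : Continuous fun α => 2 * (H α * (starRingEnd ℂ) (P α)).re).intervalIntegrable _ _
  · exact (hcn.sub (hc1r.const_mul 2 : Continuous fun α => 2 * (H α * (starRingEnd ℂ) (P α)).re)).intervalIntegrable _ _
  · exact hc2r.intervalIntegrable _ _

/-- **representations against their averages, in mean square** -/
theorem var_bound {W : ℕ} {B0 : ℝ} (hB0 : 0 ≤ B0)
    (hB : ∀ α : ℝ, |α| ≤ 1 / 2 → ‖GGs B g w α‖ * ‖1 - KK W α‖ ≤ B0) (S : Finset ℤ) :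
    ∑ N ∈ S, (rr A f B g w N - (1 / (W : ℝ)) * ∑ h ∈ Finset.range W, rr A f B g w (N - h)) ^ 2 ≤ B0 ^ 2 * JJ A f := by
  have hF := FFs_cont A f
  have hG := GGs_cont B g w
  have hK := KK_cont W
  have hH : Continuous fun α => FFs A f α * GGs B g w α * (1 - KK W α) := by fun_prop
  refine (bessel hH S (fun N => rr A f B g w N - (1 / (W : ℝ)) * ∑ h ∈ Finset.range W, rr A f B g w (N - h))
    fun N _ => rr_avg_eq A f B g w W N).trans ?_
  calc ∫ α in (-(1 / 2) : ℝ)..(1 / 2), ‖FFs A f α * GGs B g w α * (1 - KK W α)‖ ^ 2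
      ≤ ∫ α in (-(1 / 2) : ℝ)..(1 / 2), B0 ^ 2 * ‖FFs A f α‖ ^ 2 := by
        apply intervalIntegral.integral_mono_on (by norm_num)
        · apply Continuous.intervalIntegrable
          fun_prop
        · apply Continuous.intervalIntegrable
          fun_prop
        · intro α hα
          have h1 := hB α (abs_le.2 ⟨hα.1, hα.2⟩)
          have e : ‖FFs A f α * GGs B g w α * (1 - KK W α)‖ ^ 2 =
              (‖GGs B g w α‖ * ‖1 - KK W α‖) ^ 2 * ‖FFs A f α‖ ^ 2 := by
            rw [norm_mul, norm_mul]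
            ring
          rw [e]
          gcongr
    _ = B0 ^ 2 * JJ A f := by
        rw [intervalIntegral.integral_const_mul, JJ_eq]

end

end Pool.Agent.J4H18.WT
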